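import Pool.Agent.TH90.Cub.Util

set_option autoImplicit false

open CategoryTheory AlgebraicGeometry Pool.Agent.TH90.Cub

namespace Pool.Agent.Results.MP_b197b4_nt.GateComplements

/-- The formal properties used of the groups `H i X = H^i(X_et, ℤ^c(0))` of arithmetic schemes `X`
(separated, of finite type over `ℤ`) and of `M d i X = H^i(X_et, ℤ(d))` for regular `X`: `H` only
depends on `X` up to isomorphism, vanishes for the empty scheme, satisfies the localisation
sequences `H^{i-1}(X \ Z) → H^i(Z) → H^i(X) → H^i(X \ Z)` for closed `Z ⊆ X`, and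
`H^i(X_et, ℤ(d)) ≅ H^{i-2d}(X_et, ℤ^c(0))` if `X` is regular, connected, of dimension `d`. -/
structure CycleCohomology where
  /-- `H^i(X_et, ℤ^c(0))` -/
  H : ℤ → Scheme.{0} → Type
  grp : ∀ i X, AddCommGroup (H i X)
  iso : ∀ (i : ℤ) {X Y : Scheme.{0}} (_ : X ≅ Y)
    (g : Y ⟶ Spec (CommRingCat.of ℤ)), FT True ℤ g → Nonempty (H i X ≃+ H i Y)
  empty : ∀ (i : ℤ) (X : Scheme.{0}), IsEmpty X → Subsingleton (H i X)
  localization : ∀ {Z X U : Scheme.{0}} (f : X ⟶ Spec (CommRingCat.of ℤ)) (i : Z ⟶ X)
    (j : U ⟶ X), FT True ℤ f → IsClosedImmersion i → IsOpenImmersion j →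
    Set.range i = (Set.range j)ᶜ → ∀ m : ℤ,
    ∃ (bd : H (m - 1) U →+ H m Z) (push : H m Z →+ H m X) (res : H m X →+ H m U),
      Function.Exact bd push ∧ Function.Exact push res
  /-- `H^i(X_et, ℤ(d))` -/
  M : ℕ → ℤ → Scheme.{0} → Type
  grpM : ∀ d i X, AddCommGroup (M d i X)
  comparison : ∀ (d : ℕ) (X : Scheme.{0}) (f : X ⟶ Spec (CommRingCat.of ℤ)), FT True ℤ f →
    RegularScheme X → ConnectedSpace X → topologicalKrullDim X = d → ∀ i : ℤ,
    Nonempty (M d i X ≃+ H (i - 2 * d) X)

attribute [instance] CycleCohomology.grp CycleCohomology.grpM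

/-- The complement in affine space over `ℤ` of the hypersurface `h = 0`. -/
noncomputable abbrev Complement {N : ℕ} (h : MvPolynomial (Fin N) ℤ) : Scheme.{0} :=
  Spec (CommRingCat.of (Localization.Away h))

/-- The groups `H^i(X_et, ℤ^c(0))` are finitely generated for all arithmetic schemes `X` and all
`i ≤ 0` if and only if they are so for the complements in affine spaces over `ℤ` of the unions of
finitely many hypersurfaces `x_a x_b = x_c`, `x_a + x_b = x_c`, `x_a = 1`. If this is so, then
`H^i(X_et, ℤ(d))` is finitely generated for all `i ≤ 2d` and all proper, regular, connected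
arithmetic schemes `X` of dimension `d`. -/
theorem result (T : CycleCohomology) :
    ((∀ (X : Scheme.{0}) (f : X ⟶ Spec (CommRingCat.of ℤ)), FT True ℤ f → ∀ i ≤ 0,
        AddGroup.FG (T.H i X)) ↔
      (∀ (N : ℕ) (h : MvPolynomial (Fin N) ℤ), h ∈ Submonoid.closure {g | IsGate {1} g} →
        ∀ i ≤ 0, AddGroup.FG (T.H i (Complement h)))) ∧
    ((∀ (N : ℕ) (h : MvPolynomial (Fin N) ℤ), h ∈ Submonoid.closure {g | IsGate {1} g} →
        ∀ i ≤ 0, AddGroup.FG (T.H i (Complement h))) →
      ∀ (d : ℕ) (X : Scheme.{0}) (f : X ⟶ Spec (CommRingCat.of ℤ)), IsProper f →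
        RegularScheme X → ConnectedSpace X → topologicalKrullDim X = d → ∀ i ≤ (2 * d : ℤ),
        AddGroup.FG (T.M d i X)) := by
  have hall : (∀ (N : ℕ) (h : MvPolynomial (Fin N) ℤ), h ∈ Submonoid.closure {g | IsGate {1} g} →
        ∀ i ≤ 0, AddGroup.FG (T.H i (Complement h))) →
      (∀ (X : Scheme.{0}) (f : X ⟶ Spec (CommRingCat.of ℤ)), FT True ℤ f → ∀ i ≤ 0,
        AddGroup.FG (T.H i X)) := by
    intro h X f hf i hi
    let P : ∀ X : Scheme.{0}, (X ⟶ Spec (CommRingCat.of ℤ)) → Prop :=
      fun X _ => ∀ i ≤ 0, AddGroup.FG (T.H i X)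
    have hP : IsDevissage True ℤ P :=
      { iso := by
          intro X Y e g hg hX m hm
          obtain ⟨E⟩ := T.iso m e g hg
          exact fg_iso E (hX m hm)
        empty := by
          intro X f hX m hm
          exact fg_subsingleton (T.empty m X hX)
        closed := by
          intro Z X U f i j hf hi hj hr hX hU m hm
          obtain ⟨bd, push, res, h1, h2⟩ := T.localization f i j hf hi hj hr m
          exact fg_mid bd push h1 (hU (m - 1) (by omega)) (hX m hm)
        total := by
          intro Z X U f i j hf hi hj hr hZ hU m hm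
          obtain ⟨bd, push, res, h1, h2⟩ := T.localization f i j hf hi hj hr m
          exact fg_mid push res h2 (hZ m hm) (hU m hm) }
    exact all_of_gates closure_one_int (Set.mem_singleton 1) hP (fun N h' hh' => h N h' hh')
      f hf i hi
  refine ⟨⟨fun h N h' _ i hi => h _ (str ℤ _) (ft_gate h') i hi, hall⟩, ?_⟩
  intro h d X f hf hreg hcon hdim i hi
  have hft : FT True ℤ f := ⟨inferInstance, inferInstance, fun _ => inferInstance⟩
  obtain ⟨E⟩ := T.comparison d X f hft hreg hcon hdim i
  exact fg_iso E.symm (hall h X f hft (i - 2 * d) (by omega))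

end Pool.Agent.Results.MP_b197b4_nt.GateComplements
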